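import Pool.Agent.Helper54.SL.Defs
import Pool.Agent.Helper54.PW.Final

/-!
# SL-8: the decomposition group at infinity
-/

set_option autoImplicit false
set_option linter.unusedVariables false
set_option linter.unusedSectionVars false
open scoped Pointwise
open Pool.Agent.Helper54.PW

namespace Pool.Agent.Helper54.SL

namespace InertiaAux

/-! ### the trace of a finite field: an additive subgroup is determined by its annihilator -/

theorem tr_map {p n : ℕ} {R S : Type} [CommRing R] [CommRing S] (f : R →+* S) (x : R) :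
    tr p n (f x) = f (tr p n x) := by
  simp only [tr, map_sum, map_pow]

theorem tr_add {p n : ℕ} [Fact p.Prime] {R : Type} [CommRing R] [CharP R p] (x y : R) :
    tr p n (x + y) = tr p n x + tr p n y := by
  simp only [tr, ← Finset.sum_add_distrib]
  exact Finset.sum_congr rfl fun i _ => add_pow_char_pow x y p i

/-- the trace form is nondegenerate: elements outside an additive subgroup are detected -/
theorem exists_sep {p n : ℕ} [Fact p.Prime] {𝔽 : Type} [Field 𝔽] [Fintype 𝔽] [CharP 𝔽 p]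
    (h𝔽 : Fintype.card 𝔽 = p ^ n) (A : AddSubgroup 𝔽) (a : 𝔽) (ha : a ∉ A) :
    ∃ α : 𝔽, (∀ b ∈ A, tr p n (α * b) = 0) ∧ tr p n (α * a) ≠ 0 := by
  classical
  let _ : Algebra (ZMod p) 𝔽 := ZMod.algebra 𝔽 p
  have hfr : Module.finrank (ZMod p) 𝔽 = n := by
    have h1 := Module.card_eq_pow_finrank (K := ZMod p) (V := 𝔽)
    rw [h𝔽, ZMod.card] at h1
    exact (Nat.pow_right_injective (Fact.out : p.Prime).two_le h1).symm
  have htr : ∀ x : 𝔽, tr p n x = algebraMap (ZMod p) 𝔽 (Algebra.trace (ZMod p) 𝔽 x) := by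
    intro x
    rw [FiniteField.algebraMap_trace_eq_sum_pow, hfr, Nat.card_zmod]
    rfl
  have hinj := (algebraMap (ZMod p) 𝔽).injective
  let B := Algebra.traceForm (ZMod p) 𝔽
  have hB : B.Nondegenerate := traceForm_nondegenerate (ZMod p) 𝔽
  have hsymm : B.IsSymm := Algebra.traceForm_isSymm (ZMod p)
  let W : Submodule (ZMod p) 𝔽 := A.toZModSubmodule p
  have hW := LinearMap.BilinForm.orthogonal_orthogonal hB hsymm.isRefl W
  have ha' : a ∉ B.orthogonal (B.orthogonal W) := by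
    rw [hW]; exact ha
  rw [LinearMap.BilinForm.mem_orthogonal_iff] at ha'
  push Not at ha'
  obtain ⟨α, hα, hα'⟩ := ha'
  rw [LinearMap.BilinForm.mem_orthogonal_iff] at hα
  refine ⟨α, fun b hb => ?_, ?_⟩
  · have h1 := hα b hb
    rw [htr, mul_comm]
    change Algebra.trace (ZMod p) 𝔽 (b * α) = 0 at h1
    rw [h1, map_zero]
  · rw [htr]
    change Algebra.trace (ZMod p) 𝔽 (α * a) ≠ 0 at hα'
    exact fun h => hα' (hinj (by rw [h, map_zero]))

theorem eq_of_annihilator {p n : ℕ} [Fact p.Prime] {𝔽 : Type} [Field 𝔽] [Fintype 𝔽] [CharP 𝔽 p]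
    (h𝔽 : Fintype.card 𝔽 = p ^ n) (A B : AddSubgroup 𝔽)
    (h : ∀ α : 𝔽, (∀ b ∈ A, tr p n (α * b) = 0) ↔ (∀ b ∈ B, tr p n (α * b) = 0)) : A = B := by
  apply le_antisymm
  · intro a ha
    by_contra hb
    obtain ⟨α, h1, h2⟩ := exists_sep h𝔽 B a hb
    exact h2 ((h α).2 h1 a ha)
  · intro a ha
    by_contra hb
    obtain ⟨α, h1, h2⟩ := exists_sep h𝔽 A a hb
    exact h2 ((h α).1 h1 a ha)

/-- telescoping: `tr(x)^p - tr(x) = x^(p^n) - x` -/
theorem tr_pow_sub {p n : ℕ} [Fact p.Prime] {R : Type} [CommRing R] [CharP R p] (x : R) :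
    tr p n x ^ p - tr p n x = x ^ (p ^ n) - x := by
  have h1 : tr p n x ^ p = ∑ i ∈ Finset.range n, x ^ (p ^ (i + 1)) := by
    simp only [tr]
    rw [sum_pow_char p]
    exact Finset.sum_congr rfl fun i _ => by rw [← pow_mul, pow_succ]
  rw [h1]
  simp only [tr]
  rw [← Finset.sum_sub_distrib, Finset.sum_range_sub (fun i => x ^ (p ^ i))]
  simp

/-- if `v(x) > 1` then `v(x^p - x) = v(x)^p` -/
theorem val_wp {F : Type} [Field F] (A : ValuationSubring F) {p : ℕ} (hp : 2 ≤ p) {x : F}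
    (hx : 1 < A.valuation x) : A.valuation (x ^ p - x) = A.valuation x ^ p := by
  have h1 : A.valuation x < A.valuation (x ^ p) := by
    rw [map_pow]
    calc A.valuation x = A.valuation x ^ 1 := (pow_one _).symm
      _ < A.valuation x ^ p := pow_lt_pow_right₀ hx (by omega)
  rw [Valuation.map_sub_eq_of_lt_left _ h1, map_pow]

end InertiaAux

open InertiaAux

section Inf
variable {p n : ℕ} [Fact p.Prime] {k L : Type} [Field k] [IsAlgClosed k] [CharP k p] [Field L]
  [Algebra k L] [Algebra (RatFunc k) L] [IsScalarTower k (RatFunc k) L]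

/-- SL-8 with the statement `immediate` as a hypothesis -/
theorem inertia_of [FiniteDimensional (RatFunc k) L] [IsGalois (RatFunc k) L] (hn : 0 < n)
    {𝔽 : Type} [Field 𝔽] [Fintype 𝔽] (h𝔽 : Fintype.card 𝔽 = p ^ n) (ι : 𝔽 →+* k) (A₀ : AddSubgroup 𝔽)
    (c : ℕ → k)
    (hc : ∀ α : 𝔽, ∃ (e : k) (h : Polynomial k), Polynomial.C (ι α) * BP p n c =
      h ^ p - h + Polynomial.C e * Polynomial.X ^ (p ^ n + 1) ∧ (e = 0 ↔ ∀ a ∈ A₀, tr p n (α * a) = 0))
    (hF : FF k L) (A : ValuationSubring L) (hA : IsPlace k A) (hX : tX k L ∉ A) (y0 y1 : L)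
    (himm : ∀ f : L, f ≠ 0 → (∀ σ : L ≃ₐ[RatFunc k] L, σ • A = A → σ f = f) →
      ∃ g : RatFunc k, g ≠ 0 ∧ A.valuation f = A.valuation (algebraMap (RatFunc k) L g))
    (hd : dd (p ^ n) y0 y1 = 1)
    (hest : (y0 ^ (p ^ n + 1))⁻¹ - pk k L (BP p n c) ∈ A.nonunits)
    (hfix : ∀ σ : L ≃ₐ[RatFunc k] L, σ • A = A → σ y0 = y0 ∧
      ∃ a : 𝔽, σ y1 = y1 + algebraMap k L (ι a) * y0) (a : 𝔽) :
    a ∈ A₀ ↔ ∃ σ : L ≃ₐ[RatFunc k] L, σ • A = A ∧ σ y1 = y1 + algebraMap k L (ι a) * y0 := by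
  classical
  have hp : p.Prime := Fact.out
  have hq0 : p ^ n ≠ 0 := pow_ne_zero _ hp.ne_zero
  have : CharP L p := charP_of_injective_algebraMap (algebraMap k L).injective p
  have : CharP 𝔽 p := (RingHom.charP_iff_charP ι p).2 inferInstance
  let j : 𝔽 →+* L := (algebraMap k L).comp ι
  have hj : ∀ x, j x = algebraMap k L (ι x) := fun _ => rfl
  have hcommk : ∀ (σ : L ≃ₐ[RatFunc k] L) (x : k), σ (algebraMap k L x) = algebraMap k L x := by
    intro σ x
    rw [IsScalarTower.algebraMap_apply k (RatFunc k) L, AlgEquiv.commutes]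
  have hcommj : ∀ (σ : L ≃ₐ[RatFunc k] L) (x : 𝔽), σ (j x) = j x := fun σ x => hcommk σ _
  have hjq : ∀ x : 𝔽, j x ^ (p ^ n) = j x := by
    intro x
    rw [← map_pow, ← h𝔽, FiniteField.pow_card]
  have hy0 : y0 ≠ 0 := by
    rintro rfl
    simp [dd, zero_pow hq0] at hd
  set u : L := y1 / y0 with hu
  have huq : u ^ (p ^ n) - u = (y0 ^ (p ^ n + 1))⁻¹ := by
    rw [hu]
    have h1 : y0 * y1 ^ (p ^ n) - y0 ^ (p ^ n) * y1 = 1 := hd
    rw [div_pow]
    have h2 : y0 ^ (p ^ n) ≠ 0 := pow_ne_zero _ hy0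
    rw [pow_succ]
    field_simp
    linear_combination h1
  -- the group `B`
  let B : AddSubgroup 𝔽 :=
    { carrier := {a | ∃ σ : L ≃ₐ[RatFunc k] L, σ • A = A ∧ σ y1 = y1 + algebraMap k L (ι a) * y0}
      zero_mem' := ⟨1, one_smul _ _, by simp⟩
      add_mem' := by
        rintro a b ⟨σ, hσ, hσ1⟩ ⟨τ, hτ, hτ1⟩
        refine ⟨σ * τ, by rw [mul_smul, hτ, hσ], ?_⟩
        rw [AlgEquiv.mul_apply, hτ1, map_add, map_mul, hcommk, (hfix σ hσ).1, hσ1, map_add, map_add]
        ring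
      neg_mem' := by
        rintro a ⟨σ, hσ, hσ1⟩
        have hσ' : σ⁻¹ • A = A := by rw [inv_smul_eq_iff, hσ]
        refine ⟨σ⁻¹, hσ', ?_⟩
        have h1 : σ⁻¹ (σ y1) = y1 := by
          rw [← AlgEquiv.mul_apply, inv_mul_cancel, AlgEquiv.one_apply]
        rw [hσ1, map_add, map_mul, hcommk, (hfix σ⁻¹ hσ').1] at h1
        rw [map_neg, map_neg]
        linear_combination h1 }
  have hBmem : ∀ a : 𝔽, a ∈ B ↔
      ∃ σ : L ≃ₐ[RatFunc k] L, σ • A = A ∧ σ y1 = y1 + algebraMap k L (ι a) * y0 := fun _ => Iff.rfl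
  rw [← hBmem]
  suffices hAB : A₀ = B by rw [hAB]
  apply eq_of_annihilator h𝔽
  intro α
  obtain ⟨e, h, he, heA⟩ := hc α
  rw [← heA]
  have hvX : 1 < A.valuation (tX k L) := by
    rw [← not_le, A.valuation_le_one_iff]; exact hX
  -- the element `w`
  set w : L := tr p n (j α * u) with hw
  have hwp : w ^ p - w = j α * (y0 ^ (p ^ n + 1))⁻¹ := by
    rw [hw, tr_pow_sub, mul_pow, hjq, ← huq]
    ring
  have hσw : ∀ σ : L ≃ₐ[RatFunc k] L, σ • A = A → ∀ a : 𝔽, σ y1 = y1 + algebraMap k L (ι a) * y0 →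
      σ w = w + j (tr p n (α * a)) := by
    intro σ hσ a ha
    have h1 : σ u = u + j a := by
      rw [hu, map_div₀, ha, (hfix σ hσ).1, hj]
      field_simp
    have h2 : σ w = tr p n (σ (j α * u)) := by
      rw [hw]
      exact (tr_map (σ : L →+* L) _).symm
    rw [h2, map_mul, hcommj, h1, mul_add, tr_add, ← map_mul, tr_map]
  set ω : L := w - pk k L h with hω
  have hpkh : ∀ σ : L ≃ₐ[RatFunc k] L, σ (pk k L h) = pk k L h := by
    intro σ
    exact AlgEquiv.commutes σ _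
  have hσω : ∀ σ : L ≃ₐ[RatFunc k] L, σ • A = A → ∀ a : 𝔽, σ y1 = y1 + algebraMap k L (ι a) * y0 →
      σ ω = ω + j (tr p n (α * a)) := by
    intro σ hσ a ha
    rw [hω, map_sub, hσw σ hσ a ha, hpkh]
    ring
  set δ : L := j α * ((y0 ^ (p ^ n + 1))⁻¹ - pk k L (BP p n c)) with hδ
  have hδA : δ ∈ A.nonunits := mul_mem_nonunits' (hA.2 _) hest
  have hωp : ω ^ p - ω = δ + algebraMap k L e * tX k L ^ (p ^ n + 1) := by
    have h1 := congrArg (pk k L) he
    rw [map_mul, map_add, map_mul, map_sub, map_pow, map_pow, pk_C, pk_C, pk_X] at h1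
    have h2 : ω ^ p = w ^ p - pk k L h ^ p := by rw [hω, sub_pow_char]
    rw [h2, hω, hδ, hj]
    rw [hj] at hwp
    linear_combination hwp + h1
  rw [ValuationSubring.mem_nonunits_iff] at hδA
  constructor
  · -- `e = 0`
    rintro rfl b ⟨σ, hσ, hb⟩
    rw [map_zero, zero_mul, add_zero] at hωp
    have hωA : ω ∈ A := by
      rw [← A.valuation_le_one_iff]
      by_contra hcon
      rw [not_le] at hcon
      have h1 := val_wp A hp.two_le hcon
      rw [hωp] at h1
      have h2 : 1 < A.valuation ω ^ p := one_lt_pow₀ hcon hp.ne_zero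
      rw [← h1] at h2
      exact absurd h2 (not_lt.2 hδA.le)
    have h1 := stab_sub_mem_nonunits hF A hA σ hσ ω hωA
    rw [hσω σ hσ b hb, add_sub_cancel_left] at h1
    by_contra hne
    rw [ValuationSubring.mem_nonunits_iff] at h1
    have hne' : ι (tr p n (α * b)) ≠ 0 := (map_ne_zero _).2 hne
    have h2 : A.valuation (algebraMap k L (ι (tr p n (α * b)))) = 1 := val_const A hA.2 _ hne'
    rw [hj, h2] at h1
    exact lt_irrefl _ h1
  · intro hB
    by_contra he0
    have hfixω : ∀ σ : L ≃ₐ[RatFunc k] L, σ • A = A → σ ω = ω := by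
      intro σ hσ
      obtain ⟨b, hb⟩ := (hfix σ hσ).2
      rw [hσω σ hσ b hb, hB b ⟨σ, hσ, hb⟩, map_zero, add_zero]
    have hbig : A.valuation (ω ^ p - ω) = A.valuation (tX k L) ^ (p ^ n + 1) := by
      rw [hωp]
      have h1 : A.valuation (algebraMap k L e * tX k L ^ (p ^ n + 1)) =
          A.valuation (tX k L) ^ (p ^ n + 1) := by
        rw [map_mul, map_pow, val_const A hA.2 _ he0, one_mul]
      have h2 : 1 < A.valuation (tX k L) ^ (p ^ n + 1) := one_lt_pow₀ hvX (by omega)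
      rw [← h1]
      apply Valuation.map_add_eq_of_lt_right
      rw [h1]
      exact hδA.trans h2
    have hbig1 : 1 < A.valuation (ω ^ p - ω) := by
      rw [hbig]; exact one_lt_pow₀ hvX (by omega)
    have hω1 : 1 < A.valuation ω := by
      by_contra hcon
      rw [not_lt, A.valuation_le_one_iff] at hcon
      have h1 : ω ^ p - ω ∈ A := A.sub_mem (pow_mem hcon p) hcon
      rw [← A.valuation_le_one_iff] at h1
      exact absurd hbig1 (not_lt.2 h1)
    have hω0 : ω ≠ 0 := by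
      intro h0
      rw [h0, map_zero] at hω1
      exact absurd hω1 (not_lt.2 zero_le_one)
    obtain ⟨g, hg0, hg⟩ := himm ω hω0 hfixω
    rw [val_ratFunc A hA.2 hX g hg0] at hg
    have h1 := val_wp A hp.two_le hω1
    rw [hbig, hg, ← zpow_natCast, ← zpow_natCast, ← zpow_mul] at h1
    have h2 := zpow_right_injective₀ (lt_trans zero_lt_one hvX) (ne_of_gt hvX) h1
    have h3 : (p : ℤ) ∣ ((p ^ n + 1 : ℕ) : ℤ) := ⟨g.intDegree, by rw [h2]; ring⟩
    have h4 : p ∣ p ^ n + 1 := Int.natCast_dvd_natCast.1 h3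
    have h5 : p ∣ 1 := (Nat.dvd_add_right (dvd_pow_self p hn.ne')).1 h4
    exact hp.one_lt.ne' (Nat.dvd_one.1 h5)

end Inf

end Pool.Agent.Helper54.SL
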