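import Pool.Agent.Helper86.SL.Inertia
import Pool.Agent.Helper16.SL.Immediate

/-!
# SL-8: the decomposition group at infinity (without the hypothesis on the decomposition field)
-/

set_option autoImplicit false
set_option linter.unusedVariables false
set_option linter.unusedSectionVars false
open scoped Pointwise
open Pool.Agent.Helper54.PW

namespace Pool.Agent.Helper54.SL

variable {p n : ℕ} [Fact p.Prime] {k L : Type} [Field k] [IsAlgClosed k] [CharP k p] [Field L]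
  [Algebra k L] [Algebra (RatFunc k) L] [IsScalarTower k (RatFunc k) L]

theorem inertia [FiniteDimensional (RatFunc k) L] [IsGalois (RatFunc k) L] (hn : 0 < n)
    {𝔽 : Type} [Field 𝔽] [Fintype 𝔽] (h𝔽 : Fintype.card 𝔽 = p ^ n) (ι : 𝔽 →+* k) (A₀ : AddSubgroup 𝔽)
    (c : ℕ → k) (b : L)
    (hc : ∀ α : 𝔽, ∃ (e : k) (h : Polynomial k), Polynomial.C (ι α) * BP p n c =
      h ^ p - h + Polynomial.C e * Polynomial.X ^ (p ^ n + 1) ∧ (e = 0 ↔ ∀ a ∈ A₀, tr p n (α * a) = 0))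
    (hF : FF k L) (A : ValuationSubring L) (hA : IsPlace k A) (hX : tX k L ∉ A) (y0 y1 : L)
    (hd : dd (p ^ n) y0 y1 = 1)
    (hest : (y0 ^ (p ^ n + 1))⁻¹ - pk k L (BP p n c) ∈ A.nonunits)
    (hfix : ∀ σ : L ≃ₐ[RatFunc k] L, σ • A = A → σ y0 = y0 ∧
      ∃ a : 𝔽, σ y1 = y1 + algebraMap k L (ι a) * y0) (a : 𝔽) :
    a ∈ A₀ ↔ ∃ σ : L ≃ₐ[RatFunc k] L, σ • A = A ∧ σ y1 = y1 + algebraMap k L (ι a) * y0 :=
  inertia_of hn h𝔽 ι A₀ c hc hF A hA hX y0 y1
    (fun f hf h => immediate hF A hA f hf h) hd hest hfix a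

end Pool.Agent.Helper54.SL
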